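import Pool.Agent.Y755.AX.Stm

/-! Job AX-LIM for helper755: the law of the limit. -/

set_option autoImplicit false

open MeasureTheory ProbabilityTheory Filter Topology

namespace Pool.Agent.Y420.AX.LIM

open Pool.Agent.Y755.AX

/-- the bounded continuous function of finitely many evaluations -/
theorem cont (hev : S_EVC) (n : ℕ) (x : Fin n → ℝ) (φ : (Fin n → ℝ) → ℝ) (hφ : Continuous φ) :
    Continuous fun d : E => φ (fun i => ev (x i) d) :=
  hφ.comp (continuous_pi fun i => hev (x i))

theorem lim_int (hc : CompactSpace E) (P : ℕ → ProbabilityMeasure E) (Q : ProbabilityMeasure E)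
    (U : Filter ℕ) (h : Tendsto P U (𝓝 Q)) (g : E → ℝ) (hg : Continuous g) :
    Tendsto (fun m => ∫ d, g d ∂(P m : Measure E)) U (𝓝 (∫ d, g d ∂(Q : Measure E))) := by
  have h1 := (ProbabilityMeasure.tendsto_iff_forall_integral_tendsto.1 h)
    (BoundedContinuousFunction.mkOfCompact ⟨g, hg⟩)
  exact h1

theorem integ (hc : CompactSpace E) (Q : ProbabilityMeasure E) (g : E → ℝ) (hg : Continuous g) :
    Integrable g (Q : Measure E) :=
  BoundedContinuousFunction.integrable (Q : Measure E)
    (BoundedContinuousFunction.mkOfCompact ⟨g, hg⟩)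

theorem t_LIM : S_CE → S_EVC → S_PRE → S_LIM := by
  intro hc hev hpre
  have hc' : CompactSpace E := hc
  obtain ⟨C, hC, hP⟩ := hpre
  choose P hP1 hP2 using hP
  obtain ⟨Q, hQ⟩ : ∃ Q : ProbabilityMeasure E, Tendsto P (hyperfilter ℕ : Filter ℕ) (𝓝 Q) := by
    obtain ⟨Q, _, hQ⟩ := isCompact_univ.ultrafilter_le_nhds ((hyperfilter ℕ).map P) (by simp)
    exact ⟨Q, hQ⟩
  refine ⟨C, Q, hC, ?_, ?_⟩
  · intro t n x φ hφ
    have c1 := cont hev n (fun i => x i + t) φ hφ
    have c2 := cont hev n x φ hφ
    have l1 := lim_int hc' P Q _ hQ _ c1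
    have l2 := lim_int hc' P Q _ hQ _ c2
    have hK : IsCompact (Set.pi Set.univ fun _ : Fin n => Set.Icc (0 : ℝ) 2) :=
      isCompact_univ_pi fun _ => isCompact_Icc
    have huc := hK.uniformContinuousOn_of_continuous hφ.continuousOn
    rw [Metric.uniformContinuousOn_iff] at huc
    have hmem : ∀ (y : Fin n → ℝ) (d : E), (fun i => ev (y i) d) ∈
        Set.pi Set.univ fun _ : Fin n => Set.Icc (0 : ℝ) 2 := by
      intro y d i _
      exact d.2.2.1 (y i)
    have hdiff : Tendsto (fun m => (∫ d : E, φ (fun i => ev (x i + t) d) ∂(P m : Measure E)) -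
        ∫ d : E, φ (fun i => ev (x i) d) ∂(P m : Measure E)) (hyperfilter ℕ : Filter ℕ) (𝓝 0) := by
      have hU : (hyperfilter ℕ : Filter ℕ) ≤ atTop := by
        rw [← Nat.cofinite_eq_atTop]
        exact hyperfilter_le_cofinite
      refine Tendsto.mono_left ?_ hU
      rw [Metric.tendsto_atTop]
      intro ε hε
      obtain ⟨δ, hδ, huc⟩ := huc (ε / 2) (by linarith)
      have h4 : Tendsto (fun m : ℕ => (1 / 4 : ℝ) ^ m) atTop (𝓝 0) :=
        tendsto_pow_atTop_nhds_zero_of_lt_one (by norm_num) (by norm_num)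
      rw [Metric.tendsto_atTop] at h4
      obtain ⟨N, hN⟩ := h4 δ hδ
      refine ⟨N, fun m hm => ?_⟩
      have hNm := hN m hm
      rw [Real.dist_eq, sub_zero, abs_of_nonneg (by positivity)] at hNm
      obtain ⟨s, hs⟩ : ∃ s : ℝ, s = (⌊t * 4 ^ m⌋ : ℝ) / 4 ^ m := ⟨_, rfl⟩
      have hst : |t - s| < δ := by
        have h5 : (0 : ℝ) < 4 ^ m := by positivity
        have h6 := Int.floor_le (t * 4 ^ m)
        have h7 := Int.lt_floor_add_one (t * 4 ^ m)
        have h8 : s ≤ t := by
          rw [hs, div_le_iff₀ h5]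
          exact h6
        have h9 : t - s ≤ (1 / 4 : ℝ) ^ m := by
          rw [one_div, inv_pow, hs]
          have : t - (⌊t * 4 ^ m⌋ : ℝ) / 4 ^ m = (t * 4 ^ m - ⌊t * 4 ^ m⌋) / 4 ^ m := by
            field_simp
          rw [this, div_le_iff₀ h5, inv_mul_cancel₀ h5.ne']
          linarith
        rw [abs_of_nonneg (by linarith)]
        linarith
      have hsh : ∫ d : E, φ (fun i => ev (x i + s) d) ∂(P m : Measure E) =
          ∫ d : E, φ (fun i => ev (x i) d) ∂(P m : Measure E) := by
        have := hP1 m ⌊t * 4 ^ m⌋ n x φ hφ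
        rw [← hs] at this
        exact this
      rw [← hsh, Real.dist_eq, sub_zero, ← integral_sub (integ hc' _ _ c1)
        (integ hc' _ _ (cont hev n (fun i => x i + s) φ hφ))]
      have hb : ∀ d : E, ‖φ (fun i => ev (x i + t) d) - φ (fun i => ev (x i + s) d)‖ ≤ ε / 2 := by
        intro d
        have h5 := huc _ (hmem (fun i => x i + t) d) _ (hmem (fun i => x i + s) d) (by
          rw [dist_pi_lt_iff hδ]
          intro i
          rw [Real.dist_eq]
          refine lt_of_le_of_lt (d.2.1 (x i + t) (x i + s)) ?_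
          rw [show x i + t - (x i + s) = t - s by ring]
          exact hst)
        rw [Real.dist_eq] at h5
        exact h5.le
      have h6 := norm_integral_le_of_norm_le_const (μ := (P m : Measure E))
        (Eventually.of_forall hb)
      rw [probReal_univ, mul_one, Real.norm_eq_abs] at h6
      linarith
    have h3 := tendsto_nhds_unique (l1.sub l2) hdiff
    linarith
  · intro n n' x x' φ ψ hφ hψ hx hx'
    have c1 := cont hev n x φ hφ
    have c2 := cont hev n' x' ψ hψ
    have l1 := lim_int hc' P Q _ hQ _ c1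
    have l2 := lim_int hc' P Q _ hQ _ c2
    have l3 := lim_int hc' P Q _ hQ _ (c1.mul c2)
    refine tendsto_nhds_unique l3 ?_
    have h4 := l1.mul l2
    refine h4.congr fun m => ?_
    exact (hP2 m n n' x x' φ ψ hφ hψ hx hx').symm

end Pool.Agent.Y420.AX.LIM
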